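import Pool.Agent.X146.BM.Defs

/-!
# Periodic beams observed along several lines of integer speed

The inverse inequality fails for every number of lines of integer speed through a common point, and
for every two lines with distinct integer speeds; in particular no `m ≥ 3` works.
-/

set_option autoImplicit false

namespace Pool.Agent.Results.MP_8d8cf3_an.ConcurrentLines

open Pool.Agent.X146.BM

/-- (1) For every `m ≥ 3` (indeed for every `m`) there are pairwise distinct nonzero integers
`a₁, …, aₘ`, points and a time `T > 0` for which the inverse inequality fails.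
(2) It fails for all integers `a₁, …, aₘ`, all points `(tᵢ, xᵢ)` for which the `m` lines
`t ↦ (tᵢ + t, xᵢ - aᵢ t)` pass through one point `(ts, xs)`, and all `T > 0`.
(3) It fails for every two distinct integers, all points and all `T > 0`. -/
theorem result :
    (∀ m : ℕ, 3 ≤ m → ∃ a : Fin m → ℤ, Function.Injective a ∧ (∀ i, a i ≠ 0) ∧
      ∃ (t₀ x₀ : Fin m → ℝ) (T : ℝ), 0 < T ∧ ¬ InverseInequality a t₀ x₀ T) ∧
    (∀ (m : ℕ) (a : Fin m → ℤ) (t₀ x₀ : Fin m → ℝ) (T : ℝ), 0 < T →
      (∃ ts xs : ℝ, ∀ i, x₀ i - xs = -(a i : ℝ) * (t₀ i - ts)) →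
      ¬ InverseInequality a t₀ x₀ T) ∧
    (∀ (a : Fin 2 → ℤ) (t₀ x₀ : Fin 2 → ℝ) (T : ℝ), a 0 ≠ a 1 → 0 < T →
      ¬ InverseInequality a t₀ x₀ T) := by
  refine ⟨fun m _ => ⟨fun i => (i : ℤ) + 1, ?_, ?_, fun _ => 0, fun _ => 0, 1, one_pos, ?_⟩, ?_, ?_⟩
  · intro i j h
    ext
    simpa using h
  · intro i
    positivity
  · exact concurrent _ _ _ _ one_pos ⟨0, 0, fun i => by simp⟩
  · intro m a t₀ x₀ T hT hc
    exact concurrent a t₀ x₀ T hT hc
  · intro a t₀ x₀ T ha hT
    exact two_lines a ha t₀ x₀ T hT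

end Pool.Agent.Results.MP_8d8cf3_an.ConcurrentLines
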